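import Pool.Agent.Lib_helper1.XI.FinalP

/-!
MP_d0f4a1_an, Q1. For every `k` there is `R` such that along every zero path of
`Ξ_k + t Φ_{k+1}` (`0 ≤ t ≤ 1`) which stays outside the disc of radius `R` the imaginary part is
strictly decreasing; and all zeros outside that disc, for all `t` in `[0,1]`, are non-real and
simple.
-/

set_option autoImplicit false

namespace Pool.Agent.Results.MP_d0f4a1_an.FarZerosDescend

open Set Pool.Agent.XI

theorem result (k : ℕ) (hk : 1 ≤ k) : ∃ R : ℝ,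
    (∀ (J : Set ℝ) (z : ℝ → ℂ), J.OrdConnected → J ⊆ Icc 0 1 → ContinuousOn z J →
      (∀ t ∈ J, FF k t (z t) = 0 ∧ 0 < (z t).im ∧ R < ‖z t‖) →
      StrictAntiOn (fun t => (z t).im) J) ∧
    ∀ t ∈ Icc (0 : ℝ) 1, ∀ z : ℂ, R < ‖z‖ → FF k t z = 0 →
      z.im ≠ 0 ∧ deriv (FF k t) z ≠ 0 :=
  final k hk

end Pool.Agent.Results.MP_d0f4a1_an.FarZerosDescend
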